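import Mathlib

-- part MP_4b0b35_an.Pick
section

/-!
Schwarz-Pick lemma on the unit disc, with its equality case, and the consequence that a
holomorphic self-map of the disc with no fixed point is either boundary-comparable
(an automorphism) or has all orbits tending to the unit circle.
-/

namespace Pool.Agent.MP_4b0b35_an

open Metric Set Filter Topology Complex
open scoped ComplexConjugate

/-- The disc automorphism sending `a` to `0`. -/
noncomputable def mob (a z : ℂ) : ℂ := (z - a) / (1 - conj a * z)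

lemma den_ne {a z : ℂ} (ha : ‖a‖ < 1) (hz : ‖z‖ < 1) : 1 - conj a * z ≠ 0 := by
  intro h
  have h1 : conj a * z = 1 := by linear_combination -h
  have h2 : ‖conj a * z‖ < 1 := by
    rw [norm_mul, Complex.norm_conj]
    calc ‖a‖ * ‖z‖ ≤ ‖a‖ * 1 := by gcongr
      _ < 1 := by simpa using ha
  rw [h1] at h2
  simp at h2

lemma key_identity (a z : ℂ) :
    ‖1 - conj a * z‖ ^ 2 - ‖z - a‖ ^ 2 = (1 - ‖a‖ ^ 2) * (1 - ‖z‖ ^ 2) := by
  simp only [← Complex.normSq_eq_norm_sq, Complex.normSq_apply]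
  simp
  ring

lemma one_sub_mob_sq {a z : ℂ} (ha : ‖a‖ < 1) (hz : ‖z‖ < 1) :
    1 - ‖mob a z‖ ^ 2 = (1 - ‖a‖ ^ 2) * (1 - ‖z‖ ^ 2) / ‖1 - conj a * z‖ ^ 2 := by
  have hd : ‖1 - conj a * z‖ ≠ 0 := norm_ne_zero_iff.mpr (den_ne ha hz)
  rw [← key_identity, mob, norm_div, div_pow, sub_div, div_self (pow_ne_zero 2 hd)]

lemma one_sub_sq_pos {a : ℂ} (ha : ‖a‖ < 1) : 0 < 1 - ‖a‖ ^ 2 := by
  have := norm_nonneg a
  nlinarith

lemma mob_norm_lt {a z : ℂ} (ha : ‖a‖ < 1) (hz : ‖z‖ < 1) : ‖mob a z‖ < 1 := by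
  have hd : 0 < ‖1 - conj a * z‖ := norm_pos_iff.mpr (den_ne ha hz)
  have h := one_sub_mob_sq ha hz
  have h1 := one_sub_sq_pos ha
  have h2 := one_sub_sq_pos hz
  have h3 : 0 < 1 - ‖mob a z‖ ^ 2 := by rw [h]; positivity
  have := norm_nonneg (mob a z)
  nlinarith

lemma mob_neg_mob {a z : ℂ} (ha : ‖a‖ < 1) (hz : ‖z‖ < 1) : mob (-a) (mob a z) = z := by
  have hd := den_ne ha hz
  have hd2 := den_ne ha ha
  have hd3 : 1 - conj (-a) * mob a z ≠ 0 := den_ne (by simpa using ha) (mob_norm_lt ha hz)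
  rw [mob, div_eq_iff hd3]
  simp only [mob, map_neg]
  have e : (z - a) / (1 - conj a * z) * (1 - conj a * z) = z - a := div_mul_cancel₀ _ hd
  apply mul_right_cancel₀ hd
  linear_combination (1 - z * conj a) * e

lemma mob_self (a : ℂ) : mob a a = 0 := by simp [mob]

lemma mob_neg_zero (a : ℂ) : mob (-a) 0 = a := by simp [mob]

lemma mob_eq_zero {a z : ℂ} (ha : ‖a‖ < 1) (hz : ‖z‖ < 1) (h : mob a z = 0) : z = a := by
  have hd := den_ne ha hz
  rw [mob, div_eq_zero_iff] at h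
  rcases h with h | h
  · exact sub_eq_zero.mp h
  · exact absurd h hd

lemma mob_differentiableOn {a : ℂ} (ha : ‖a‖ < 1) :
    DifferentiableOn ℂ (mob a) (ball 0 1) := by
  intro z hz
  have hz' : ‖z‖ < 1 := by simpa using hz
  have hd := den_ne ha hz'
  apply DifferentiableAt.differentiableWithinAt
  unfold mob
  apply DifferentiableAt.div
  · fun_prop
  · fun_prop
  · exact hd

lemma mob_mapsTo {a : ℂ} (ha : ‖a‖ < 1) : MapsTo (mob a) (ball 0 1) (ball 0 1) := by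
  intro z hz
  have hz' : ‖z‖ < 1 := by simpa using hz
  simpa using mob_norm_lt ha hz'

section Pick

variable {φ : ℂ → ℂ} (hφ : DifferentiableOn ℂ φ (ball 0 1))
  (hmaps : MapsTo φ (ball 0 1) (ball 0 1))
include hφ hmaps

lemma conj_diff {p : ℂ} (hp : ‖p‖ < 1) :
    DifferentiableOn ℂ (fun u => mob (φ p) (φ (mob (-p) u))) (ball 0 1) := by
  have hp' : ‖-p‖ < 1 := by simpa using hp
  have hφp : ‖φ p‖ < 1 := by simpa using hmaps (by simpa using hp)
  exact (mob_differentiableOn hφp).comp (hφ.comp (mob_differentiableOn hp') (mob_mapsTo hp'))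
    (hmaps.comp (mob_mapsTo hp'))

omit hφ in
lemma conj_maps {p : ℂ} (hp : ‖p‖ < 1) :
    MapsTo (fun u => mob (φ p) (φ (mob (-p) u))) (ball 0 1) (ball 0 1) := by
  have hp' : ‖-p‖ < 1 := by simpa using hp
  have hφp : ‖φ p‖ < 1 := by simpa using hmaps (by simpa using hp)
  exact (mob_mapsTo hφp).comp (hmaps.comp (mob_mapsTo hp'))

/-- Schwarz-Pick inequality. -/
lemma pick {p z : ℂ} (hp : ‖p‖ < 1) (hz : ‖z‖ < 1) :
    ‖mob (φ p) (φ z)‖ ≤ ‖mob p z‖ := by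
  have h := Complex.norm_le_norm_of_mapsTo_ball (conj_diff hφ hmaps hp)
    ((conj_maps hmaps hp).mono_right ball_subset_closedBall)
    (by simp only [mob_neg_zero, mob_self]) (mob_norm_lt hp hz)
  simpa only [mob_neg_mob hp hz] using h

/-- Equality case of Schwarz-Pick. -/
lemma pick_eq {p z : ℂ} (hp : ‖p‖ < 1) (hz : ‖z‖ < 1) (hne : z ≠ p)
    (heq : ‖mob (φ p) (φ z)‖ = ‖mob p z‖) {w : ℂ} (hw : ‖w‖ < 1) :
    ‖mob (φ p) (φ w)‖ = ‖mob p w‖ := by
  set F : ℂ → ℂ := fun u => mob (φ p) (φ (mob (-p) u)) with hF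
  have hF0 : F 0 = 0 := by simp only [hF, mob_neg_zero, mob_self]
  have hu : mob p z ≠ 0 := fun h => hne (mob_eq_zero hp hz h)
  have hFu : F (mob p z) = mob (φ p) (φ z) := by simp only [hF, mob_neg_mob hp hz]
  have hslope : ‖dslope F 0 (mob p z)‖ = 1 / 1 := by
    rw [dslope_of_ne _ hu, slope_def_field, hF0, hFu, sub_zero, sub_zero, norm_div, heq,
      div_self (norm_ne_zero_iff.mpr hu)]
    norm_num
  have hmaps' : MapsTo F (ball 0 1) (closedBall (F 0) 1) := by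
    rw [hF0]
    exact (conj_maps hmaps hp).mono_right ball_subset_closedBall
  have haff := Complex.affine_of_mapsTo_ball_of_norm_dslope_eq_div (conj_diff hφ hmaps hp)
    hmaps' (by simpa using mob_norm_lt hp hz) hslope
  have h1 := haff (show mob p w ∈ ball (0 : ℂ) 1 by simpa using mob_norm_lt hp hw)
  have h2 : mob (φ p) (φ w) = mob p w * dslope F 0 (mob p z) := by
    have h3 : F (mob p w) = mob (φ p) (φ w) := by simp only [hF, mob_neg_mob hp hw]
    rw [← h3]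
    have h4 : F (mob p w) = F 0 + (mob p w - 0) • dslope F 0 (mob p z) := h1
    rw [h4, hF0, zero_add, sub_zero, smul_eq_mul]
  rw [h2, norm_mul, hslope]
  simp

omit hφ in
/-- If `φ` preserves the pseudo-hyperbolic distance to one point, then the distance to the
boundary of `φ w` is at most a constant times that of `w`. -/
lemma comparable_of_isometry {p : ℂ} (hp : ‖p‖ < 1)
    (h : ∀ w : ℂ, ‖w‖ < 1 → ‖mob (φ p) (φ w)‖ = ‖mob p w‖) :
    ∃ C : ℝ, 0 < C ∧ ∀ w : ℂ, ‖w‖ < 1 → 1 - ‖φ w‖ ^ 2 ≤ C * (1 - ‖w‖ ^ 2) := by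
  have hφp : ‖φ p‖ < 1 := by simpa using hmaps (by simpa using hp)
  have hp1 := one_sub_sq_pos hp
  have hp2 := one_sub_sq_pos hφp
  have hp3 : 0 < 1 - ‖p‖ := by linarith
  refine ⟨4 * (1 - ‖p‖ ^ 2) / ((1 - ‖p‖) ^ 2 * (1 - ‖φ p‖ ^ 2)), by positivity, fun w hw => ?_⟩
  have hφw : ‖φ w‖ < 1 := by simpa using hmaps (by simpa using hw)
  have hw1 := one_sub_sq_pos hw
  have hw2 := one_sub_sq_pos hφw
  have e1 := one_sub_mob_sq hφp hφw
  have e2 := one_sub_mob_sq hp hw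
  rw [h w hw, e2] at e1
  have d1 : 0 < ‖1 - conj p * w‖ := norm_pos_iff.mpr (den_ne hp hw)
  have d2 : 0 < ‖1 - conj (φ p) * φ w‖ := norm_pos_iff.mpr (den_ne hφp hφw)
  have b1 : 1 - ‖p‖ ≤ ‖1 - conj p * w‖ := by
    have : ‖conj p * w‖ ≤ ‖p‖ := by
      rw [norm_mul, Complex.norm_conj]
      calc ‖p‖ * ‖w‖ ≤ ‖p‖ * 1 := by gcongr
        _ = ‖p‖ := mul_one _
    have h2 := norm_sub_norm_le (1 : ℂ) (conj p * w)
    rw [norm_one] at h2
    linarith
  have b2 : ‖1 - conj (φ p) * φ w‖ ≤ 2 := by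
    have : ‖conj (φ p) * φ w‖ ≤ 1 := by
      rw [norm_mul, Complex.norm_conj]
      calc ‖φ p‖ * ‖φ w‖ ≤ 1 * 1 := by gcongr
        _ = 1 := mul_one _
    have h2 := norm_sub_le (1 : ℂ) (conj (φ p) * φ w)
    rw [norm_one] at h2
    linarith
  have e3 : 1 - ‖φ w‖ ^ 2 = (1 - ‖p‖ ^ 2) * (1 - ‖w‖ ^ 2) * ‖1 - conj (φ p) * φ w‖ ^ 2 /
      (‖1 - conj p * w‖ ^ 2 * (1 - ‖φ p‖ ^ 2)) := by
    rw [div_eq_div_iff (by positivity) (by positivity)] at e1
    rw [eq_div_iff (by positivity)]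
    linear_combination -e1
  rw [e3]
  calc (1 - ‖p‖ ^ 2) * (1 - ‖w‖ ^ 2) * ‖1 - conj (φ p) * φ w‖ ^ 2 /
      (‖1 - conj p * w‖ ^ 2 * (1 - ‖φ p‖ ^ 2))
      ≤ (1 - ‖p‖ ^ 2) * (1 - ‖w‖ ^ 2) * 2 ^ 2 / ((1 - ‖p‖) ^ 2 * (1 - ‖φ p‖ ^ 2)) := by
        gcongr
    _ = 4 * (1 - ‖p‖ ^ 2) / ((1 - ‖p‖) ^ 2 * (1 - ‖φ p‖ ^ 2)) * (1 - ‖w‖ ^ 2) := by
        ring

omit hφ in
lemma iterate_lt {z : ℂ} (hz : ‖z‖ < 1) (n : ℕ) : ‖φ^[n] z‖ < 1 := by
  have := (hmaps.iterate n) (show z ∈ ball (0 : ℂ) 1 by simpa using hz)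
  simpa using this

omit hφ hmaps in
lemma tendsto_mob {x y : ℕ → ℂ} {a b : ℂ} (ha : ‖a‖ < 1) (hb : ‖b‖ < 1)
    (hx : Tendsto x atTop (𝓝 a)) (hy : Tendsto y atTop (𝓝 b)) :
    Tendsto (fun n => ‖mob (x n) (y n)‖) atTop (𝓝 ‖mob a b‖) := by
  apply Tendsto.norm
  unfold mob
  refine Tendsto.div (hy.sub hx) ?_ (den_ne ha hb)
  exact tendsto_const_nhds.sub (((continuous_conj.tendsto a).comp hx).mul hy)

/-- The dichotomy for a self-map of the disc without fixed point. -/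
lemma dichotomy (hfix : ∀ p ∈ ball (0 : ℂ) 1, φ p ≠ p) :
    (∃ C : ℝ, 0 < C ∧ ∀ w : ℂ, ‖w‖ < 1 → 1 - ‖φ w‖ ^ 2 ≤ C * (1 - ‖w‖ ^ 2)) ∨
    (∀ z : ℂ, ‖z‖ < 1 → ∀ r : ℝ, r < 1 → ∀ᶠ n in atTop, r < ‖φ^[n] z‖) := by
  by_cases hB : ∀ z : ℂ, ‖z‖ < 1 → ∀ r : ℝ, r < 1 → ∀ᶠ n in atTop, r < ‖φ^[n] z‖
  · exact Or.inr hB
  left
  push Not at hB
  obtain ⟨z, hz, r, hr, hfreq⟩ := hB
  have hfreq' : ∃ᶠ n in atTop, φ^[n] z ∈ closedBall (0 : ℂ) r := by
    refine hfreq.mono fun n hn => ?_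
    simpa using hn
  obtain ⟨q, hq, s, hs, hlim⟩ := (isCompact_closedBall (0 : ℂ) r).tendsto_subseq' hfreq'
  have hq1 : ‖q‖ < 1 := lt_of_le_of_lt (by simpa using hq) hr
  have hqb : q ∈ ball (0 : ℂ) 1 := by simpa using hq1
  have hq2 : ‖φ q‖ < 1 := by simpa using hmaps hqb
  have hqb2 : φ q ∈ ball (0 : ℂ) 1 := by simpa using hq2
  have hq3 : ‖φ (φ q)‖ < 1 := by simpa using hmaps hqb2
  have hc1 : ContinuousAt φ q := hφ.continuousOn.continuousAt (isOpen_ball.mem_nhds hqb)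
  have hc2 : ContinuousAt φ (φ q) := hφ.continuousOn.continuousAt (isOpen_ball.mem_nhds hqb2)
  have hlim1 : Tendsto (fun k => φ (φ^[s k] z)) atTop (𝓝 (φ q)) := hc1.tendsto.comp hlim
  have hlim2 : Tendsto (fun k => φ (φ (φ^[s k] z))) atTop (𝓝 (φ (φ q))) :=
    hc2.tendsto.comp hlim1
  set d : ℕ → ℝ := fun n => ‖mob (φ^[n] z) (φ (φ^[n] z))‖ with hd
  have hanti : Antitone d := by
    apply antitone_nat_of_succ_le
    intro n
    simp only [hd, Function.iterate_succ_apply']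
    apply pick hφ hmaps (iterate_lt hmaps hz n)
    have := iterate_lt hmaps hz (n + 1)
    rwa [Function.iterate_succ_apply'] at this
  have hbdd : BddBelow (range d) := ⟨0, by rintro _ ⟨n, rfl⟩; exact norm_nonneg _⟩
  have hconv := tendsto_atTop_ciInf hanti hbdd
  have t1 : Tendsto (fun k => d (s k)) atTop (𝓝 ‖mob q (φ q)‖) :=
    tendsto_mob hq1 hq2 hlim hlim1
  have t2 : Tendsto (fun k => d (s k + 1)) atTop (𝓝 ‖mob (φ q) (φ (φ q))‖) := by
    simp only [hd, Function.iterate_succ_apply']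
    exact tendsto_mob hq2 hq3 hlim1 hlim2
  have u1 := tendsto_nhds_unique t1 (hconv.comp hs.tendsto_atTop)
  have u2 := tendsto_nhds_unique t2
    (hconv.comp ((tendsto_add_atTop_nat 1).comp hs.tendsto_atTop))
  have heq : ‖mob (φ q) (φ (φ q))‖ = ‖mob q (φ q)‖ := u2.trans u1.symm
  exact comparable_of_isometry hmaps hq1
    (fun w hw => pick_eq hφ hmaps hq1 hq2 (hfix q hqb) heq hw)

end Pick

end Pool.Agent.MP_4b0b35_an

end

-- part MP_4b0b35_an.Hardy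
section

/-!
The Hardy space as the space of square-summable Taylor coefficients; reproducing kernels;
the boundary decay forced by compactness; the spectrum of a compact weighted composition
operator whose symbol has no fixed point in the disc.
-/

namespace Pool.Agent.MP_4b0b35_an

open Metric Set Filter Topology Complex
open scoped ComplexConjugate

abbrev H2 : Type := lp (fun _ : ℕ => ℂ) 2

noncomputable def ev (a : H2) (z : ℂ) : ℂ := ∑' n, a n * z ^ n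

lemma ker_mem {w : ℂ} (hw : ‖w‖ < 1) : Memℓp (fun n : ℕ => (conj w) ^ n) 2 := by
  apply memℓp_gen
  have h : ‖w‖ ^ 2 < 1 := by have := one_sub_sq_pos hw; linarith
  have := summable_geometric_of_lt_one (by positivity) h
  refine this.congr fun n => ?_
  simp only [ENNReal.toReal_ofNat, norm_pow, Complex.norm_conj, Real.rpow_ofNat]
  ring

noncomputable def ker (w : ℂ) (hw : ‖w‖ < 1) : H2 := ⟨fun n => (conj w) ^ n, ker_mem hw⟩

lemma ker_apply (w : ℂ) (hw : ‖w‖ < 1) (n : ℕ) : ker w hw n = (conj w) ^ n := rfl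

lemma inner_ker (w : ℂ) (hw : ‖w‖ < 1) (a : H2) : inner ℂ (ker w hw) a = ev a w := by
  rw [lp.inner_eq_tsum, ev]
  refine tsum_congr fun n => ?_
  simp [ker_apply]

lemma ev_ker (w : ℂ) (hw : ‖w‖ < 1) : ev (ker w hw) w = ((1 - ‖w‖ ^ 2 : ℝ) : ℂ)⁻¹ := by
  have h : ‖conj w * w‖ < 1 := by
    rw [norm_mul, Complex.norm_conj]
    have := one_sub_sq_pos hw
    nlinarith
  have h2 := tsum_geometric_of_norm_lt_one h
  rw [ev]
  simp only [ker_apply, ← mul_pow]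
  rw [h2, Complex.conj_mul']
  push_cast
  rfl

lemma norm_ker_sq (w : ℂ) (hw : ‖w‖ < 1) : ‖ker w hw‖ ^ 2 = (1 - ‖w‖ ^ 2)⁻¹ := by
  have h := inner_ker w hw (ker w hw)
  rw [ev_ker, inner_self_eq_norm_sq_to_K] at h
  apply Complex.ofReal_injective
  rw [Complex.ofReal_inv, ← h]
  simp

/-- The weight `sqrt (1 - |w|^2)`. -/
noncomputable def sw (w : ℂ) : ℝ := Real.sqrt (1 - ‖w‖ ^ 2)

lemma sw_pos {w : ℂ} (hw : ‖w‖ < 1) : 0 < sw w := Real.sqrt_pos.mpr (one_sub_sq_pos hw)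

lemma sw_sq {w : ℂ} (hw : ‖w‖ < 1) : sw w ^ 2 = 1 - ‖w‖ ^ 2 :=
  Real.sq_sqrt (one_sub_sq_pos hw).le

lemma norm_ker_mul (w : ℂ) (hw : ‖w‖ < 1) : ‖ker w hw‖ * sw w = 1 := by
  have h1 : (‖ker w hw‖ * sw w) ^ 2 = 1 := by
    rw [mul_pow, norm_ker_sq, sw_sq hw, inv_mul_cancel₀ (one_sub_sq_pos hw).ne']
  have h2 : 0 ≤ ‖ker w hw‖ * sw w := mul_nonneg (norm_nonneg _) (sw_pos hw).le
  nlinarith

lemma ev_bound (a : H2) {w : ℂ} (hw : ‖w‖ < 1) : ‖ev a w‖ * sw w ≤ ‖a‖ := by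
  rw [← inner_ker w hw]
  calc ‖inner ℂ (ker w hw) a‖ * sw w ≤ ‖ker w hw‖ * ‖a‖ * sw w := by
        gcongr
        · exact (sw_pos hw).le
        · exact norm_inner_le_norm _ _
    _ = (‖ker w hw‖ * sw w) * ‖a‖ := by ring
    _ = ‖a‖ := by rw [norm_ker_mul, one_mul]

lemma ev_sub (a b : H2) {w : ℂ} (hw : ‖w‖ < 1) : ev (a - b) w = ev a w - ev b w := by
  simp only [← inner_ker w hw, inner_sub_right]

lemma ev_smul (c : ℂ) (a : H2) {w : ℂ} (hw : ‖w‖ < 1) : ev (c • a) w = c * ev a w := by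
  simp only [← inner_ker w hw, inner_smul_right]

lemma ev_le_add (a b : H2) {w : ℂ} (hw : ‖w‖ < 1) :
    ‖ev a w‖ * sw w ≤ ‖ev b w‖ * sw w + ‖a - b‖ := by
  have h1 := ev_bound (a - b) hw
  rw [ev_sub a b hw] at h1
  have h2 : ‖ev a w‖ ≤ ‖ev b w‖ + ‖ev a w - ev b w‖ := norm_le_norm_add_norm_sub' _ _
  have h3 := sw_pos hw
  nlinarith

/-- Normalised kernels tend weakly to zero at the boundary. -/
lemma ev_small (a : H2) {δ : ℝ} (hδ : 0 < δ) :
    ∀ᶠ t in 𝓝[<] (1 : ℝ), ∀ w : ℂ, ‖w‖ = t → ‖ev a w‖ * sw w ≤ δ := by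
  classical
  have hs := lp.hasSum_single (E := fun _ : ℕ => ℂ) (p := 2) (by simp) a
  obtain ⟨F, hF⟩ := (Metric.tendsto_nhds.mp hs (δ / 2) (by positivity)).exists
  set b : H2 := ∑ i ∈ F, lp.single 2 i (a i) with hb
  set M : ℝ := ∑ i ∈ F, ‖a i‖ with hM
  have hbM : ∀ w : ℂ, ‖w‖ < 1 → ‖ev b w‖ ≤ M := by
    intro w hw
    rw [← inner_ker w hw, hb, inner_sum]
    refine (norm_sum_le _ _).trans (Finset.sum_le_sum fun i _ => ?_)
    rw [lp.inner_single_right]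
    refine (norm_inner_le_norm _ _).trans ?_
    rw [ker_apply, norm_pow, Complex.norm_conj]
    have : ‖w‖ ^ i ≤ 1 := pow_le_one₀ (norm_nonneg _) hw.le
    calc ‖w‖ ^ i * ‖a i‖ ≤ 1 * ‖a i‖ := by gcongr
      _ = ‖a i‖ := one_mul _
  have hlim : Tendsto (fun t : ℝ => M * Real.sqrt (1 - t ^ 2)) (𝓝[<] 1) (𝓝 0) := by
    have : Continuous (fun t : ℝ => M * Real.sqrt (1 - t ^ 2)) := by fun_prop
    have h := (this.tendsto 1).mono_left (nhdsWithin_le_nhds (s := Iio 1))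
    simpa using h
  filter_upwards [hlim.eventually_le_const (show (0 : ℝ) < δ / 2 by positivity),
    self_mem_nhdsWithin] with t ht ht1 w hw
  have hw1 : ‖w‖ < 1 := by rw [hw]; exact ht1
  have h1 := ev_le_add a b hw1
  have h2 : ‖a - b‖ ≤ δ / 2 := by
    rw [← dist_eq_norm, dist_comm]
    exact hF.le
  have h3 : ‖ev b w‖ * sw w ≤ M * sw w := by
    have := (sw_pos hw1).le
    gcongr
    exact hbM w hw1
  have h4 : M * sw w ≤ δ / 2 := by
    rw [sw, hw]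
    exact ht
  linarith

/-- The same, uniformly on the image of the unit ball under a compact operator. -/
lemma ev_small_compact {T : H2 →L[ℂ] H2} (hc : IsCompactOperator T) {δ : ℝ} (hδ : 0 < δ) :
    ∃ r : ℝ, r < 1 ∧ ∀ w : ℂ, r < ‖w‖ → ‖w‖ < 1 → ∀ a : H2, ‖a‖ ≤ 1 →
      ‖ev (T a) w‖ * sw w ≤ δ := by
  obtain ⟨K, hK, hK'⟩ := hc.image_closedBall_subset_compact 1
  obtain ⟨S, hSfin, hS⟩ := Metric.totallyBounded_iff.mp hK.totallyBounded (δ / 2) (by positivity)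
  have hev : ∀ᶠ t in 𝓝[<] (1 : ℝ), ∀ b ∈ S, ∀ w : ℂ, ‖w‖ = t → ‖ev b w‖ * sw w ≤ δ / 2 :=
    (eventually_all_finite hSfin).mpr fun b _ => ev_small b (by positivity)
  obtain ⟨r, hr, hsub⟩ := (mem_nhdsLT_iff_exists_Ioo_subset).mp hev
  refine ⟨r, hr, fun w h1 h2 a ha => ?_⟩
  have hmem : T a ∈ K := hK' ⟨a, by simpa using ha, rfl⟩
  obtain ⟨b, hb, hab⟩ := mem_iUnion₂.mp (hS hmem)
  have h3 := hsub (show ‖w‖ ∈ Ioo r 1 from ⟨h1, h2⟩) b hb w rfl
  have h4 := ev_le_add (T a) b h2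
  rw [mem_ball, dist_eq_norm] at hab
  linarith

/-- An element of the Hardy space that vanishes on the disc is zero. -/
lemma eq_zero_of_ev (a : H2) (h : ∀ z : ℂ, ‖z‖ < 1 → ev a z = 0) : a = 0 := by
  set p := FormalMultilinearSeries.ofScalars ℂ (fun n => a n) with hp
  have hnorm : ∀ n, ‖p n‖ = ‖a n‖ := fun n => by
    rw [hp, FormalMultilinearSeries.ofScalars_norm]
  have hrad : ((1 : NNReal) : ENNReal) ≤ p.radius := by
    apply FormalMultilinearSeries.le_radius_of_bound p ‖a‖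
    intro n
    rw [hnorm]
    simpa using lp.norm_apply_le_norm (by simp) a n
  have hpos : 0 < p.radius := lt_of_lt_of_le (by simp) hrad
  have h1 : HasFPowerSeriesAt p.sum p 0 := (p.hasFPowerSeriesOnBall hpos).hasFPowerSeriesAt
  have h2 : p.sum =ᶠ[𝓝 0] (0 : ℂ → ℂ) := by
    filter_upwards [ball_mem_nhds (0 : ℂ) one_pos] with z hz
    have := h z (by simpa using hz)
    rw [ev] at this
    rw [FormalMultilinearSeries.sum]
    simp only [hp, FormalMultilinearSeries.ofScalars_apply_eq, smul_eq_mul]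
    simpa using this
  have h3 : p = 0 := (h1.congr h2).eq_zero
  apply lp.ext
  funext n
  have := hnorm n
  rw [h3] at this
  simpa using this.symm

section Main

variable {ψ φ : ℂ → ℂ} {T : H2 →L[ℂ] H2}

/-- Compactness forces the weight to decay relative to the symbol. -/
lemma weight_decay (hmaps : MapsTo φ (ball 0 1) (ball 0 1))
    (hT : ∀ a : H2, ∀ z ∈ ball (0 : ℂ) 1, ev (T a) z = ψ z * ev a (φ z))
    (hc : IsCompactOperator T) {δ : ℝ} (hδ : 0 < δ) :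
    ∃ r : ℝ, r < 1 ∧ ∀ w : ℂ, r < ‖w‖ → ‖w‖ < 1 → ‖ψ w‖ * sw w ≤ δ * sw (φ w) := by
  obtain ⟨r, hr, h⟩ := ev_small_compact hc hδ
  refine ⟨r, hr, fun w h1 h2 => ?_⟩
  have hwb : w ∈ ball (0 : ℂ) 1 := by simpa using h2
  have hφw : ‖φ w‖ < 1 := by simpa using hmaps hwb
  have hs := sw_pos hφw
  have ha : ‖((sw (φ w) : ℝ) : ℂ) • ker (φ w) hφw‖ ≤ 1 := by
    rw [norm_smul, Complex.norm_real, Real.norm_of_nonneg hs.le, mul_comm, norm_ker_mul]
  have h3 := h w h1 h2 _ ha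
  rw [hT _ w hwb, ev_smul _ _ hφw, ev_ker, ← sw_sq hφw, norm_mul, norm_mul, norm_inv,
    Complex.norm_real, Complex.norm_real, Real.norm_of_nonneg hs.le,
    Real.norm_of_nonneg (by positivity)] at h3
  have h4 : ‖ψ w‖ * sw w = ‖ψ w‖ * (sw (φ w) * (sw (φ w) ^ 2)⁻¹) * sw w * sw (φ w) := by
    field_simp
  rw [h4]
  gcongr

lemma psi_zero_of_comparable (hψ : DifferentiableOn ℂ ψ (ball 0 1))
    (hmaps : MapsTo φ (ball 0 1) (ball 0 1))
    (hT : ∀ a : H2, ∀ z ∈ ball (0 : ℂ) 1, ev (T a) z = ψ z * ev a (φ z))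
    (hc : IsCompactOperator T) {C : ℝ} (hC : 0 < C)
    (hcomp : ∀ w : ℂ, ‖w‖ < 1 → 1 - ‖φ w‖ ^ 2 ≤ C * (1 - ‖w‖ ^ 2))
    {z : ℂ} (hz : ‖z‖ < 1) : ψ z = 0 := by
  have hsq : 0 < Real.sqrt C := Real.sqrt_pos.mpr hC
  have key : ∀ ε : ℝ, 0 < ε → ‖ψ z‖ ≤ ε := by
    intro ε hε
    obtain ⟨r, hr, h⟩ := weight_decay hmaps hT hc (show 0 < ε / Real.sqrt C by positivity)
    obtain ⟨R, hR1, hR2⟩ := exists_between (max_lt hr hz)
    have hRr : r < R := lt_of_le_of_lt (le_max_left _ _) hR1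
    have hRz : ‖z‖ < R := lt_of_le_of_lt (le_max_right _ _) hR1
    have hRpos : 0 < R := lt_of_le_of_lt (norm_nonneg _) hRz
    have hd : DiffContOnCl ℂ ψ (ball 0 R) :=
      hψ.diffContOnCl_ball (closedBall_subset_ball hR2)
    refine Complex.norm_le_of_forall_mem_frontier_norm_le isBounded_ball hd ?_
      (subset_closure (by simpa using hRz))
    intro w hw
    rw [frontier_ball _ hRpos.ne'] at hw
    have hwR : ‖w‖ = R := by simpa using hw
    have hw1 : ‖w‖ < 1 := by rw [hwR]; exact hR2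
    have h1 := h w (by rw [hwR]; exact hRr) hw1
    have h2 : sw (φ w) ≤ Real.sqrt C * sw w := by
      rw [sw, sw, ← Real.sqrt_mul hC.le]
      exact Real.sqrt_le_sqrt (hcomp w hw1)
    have h3 := sw_pos hw1
    have h4 : ‖ψ w‖ * sw w ≤ ε * sw w := by
      calc ‖ψ w‖ * sw w ≤ ε / Real.sqrt C * sw (φ w) := h1
        _ ≤ ε / Real.sqrt C * (Real.sqrt C * sw w) := by gcongr
        _ = ε * sw w := by field_simp
    exact le_of_mul_le_mul_right h4 h3
  have : ‖ψ z‖ ≤ 0 := le_of_forall_pos_le_add (fun ε hε => by simpa using key ε hε)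
  exact norm_le_zero_iff.mp this

/-- No nonzero eigenvalue. -/
lemma no_eigen (hψ : DifferentiableOn ℂ ψ (ball 0 1)) (hφ : DifferentiableOn ℂ φ (ball 0 1))
    (hmaps : MapsTo φ (ball 0 1) (ball 0 1)) (hfix : ∀ p ∈ ball (0 : ℂ) 1, φ p ≠ p)
    (hT : ∀ a : H2, ∀ z ∈ ball (0 : ℂ) 1, ev (T a) z = ψ z * ev a (φ z))
    (hc : IsCompactOperator T) {μ : ℂ} (hμ : μ ≠ 0) {a : H2} (ha : T a = μ • a) : a = 0 := by
  have heig : ∀ z : ℂ, ‖z‖ < 1 → μ * ev a z = ψ z * ev a (φ z) := by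
    intro z hz
    rw [← hT a z (by simpa using hz), ha, ev_smul _ _ hz]
  apply eq_zero_of_ev
  intro z hz
  rcases dichotomy hφ hmaps hfix with ⟨C, hC, hcomp⟩ | horb
  · have h0 := psi_zero_of_comparable hψ hmaps hT hc hC hcomp hz
    have h1 := heig z hz
    rw [h0, zero_mul] at h1
    exact (mul_eq_zero.mp h1).resolve_left hμ
  · have hμ' : 0 < ‖μ‖ := norm_pos_iff.mpr hμ
    obtain ⟨r, hr, h⟩ := weight_decay hmaps hT hc (show 0 < ‖μ‖ / 2 by positivity)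
    obtain ⟨N, hN⟩ := eventually_atTop.mp (horb z hz r hr)
    set g : ℕ → ℝ := fun n => ‖ev a (φ^[n] z)‖ * sw (φ^[n] z) with hg
    have hstep : ∀ n, N ≤ n → 2 * g n ≤ g (n + 1) := by
      intro n hn
      have hlt := iterate_lt hmaps hz n
      have h1 := h _ (hN n hn) hlt
      have h2 := congrArg norm (heig _ hlt)
      rw [norm_mul, norm_mul] at h2
      simp only [hg, Function.iterate_succ_apply']
      have h3 : ‖μ‖ * (2 * (‖ev a (φ^[n] z)‖ * sw (φ^[n] z))) ≤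
          ‖μ‖ * (‖ev a (φ (φ^[n] z))‖ * sw (φ (φ^[n] z))) := by
        calc ‖μ‖ * (2 * (‖ev a (φ^[n] z)‖ * sw (φ^[n] z)))
            = 2 * (‖μ‖ * ‖ev a (φ^[n] z)‖) * sw (φ^[n] z) := by ring
          _ = 2 * ‖ev a (φ (φ^[n] z))‖ * (‖ψ (φ^[n] z)‖ * sw (φ^[n] z)) := by rw [h2]; ring
          _ ≤ 2 * ‖ev a (φ (φ^[n] z))‖ * (‖μ‖ / 2 * sw (φ (φ^[n] z))) := by gcongr
          _ = ‖μ‖ * (‖ev a (φ (φ^[n] z))‖ * sw (φ (φ^[n] z))) := by ring
      exact le_of_mul_le_mul_left h3 hμ'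
    have hgrow : ∀ k : ℕ, 2 ^ k * g N ≤ g (N + k) := by
      intro k
      induction k with
      | zero => simp
      | succ k ih =>
        have := hstep (N + k) (Nat.le_add_right _ _)
        rw [pow_succ, ← Nat.add_assoc]
        linarith
    have hbd : ∀ n, g n ≤ ‖a‖ := fun n => ev_bound a (iterate_lt hmaps hz n)
    have hgN : g N ≤ 0 := by
      by_contra hpos
      push Not at hpos
      obtain ⟨k, hk⟩ := pow_unbounded_of_one_lt (‖a‖ / g N) (show (1 : ℝ) < 2 by norm_num)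
      rw [div_lt_iff₀ hpos] at hk
      linarith [hgrow k, hbd (N + k)]
    have hevN : ev a (φ^[N] z) = 0 := by
      have h1 := sw_pos (iterate_lt hmaps hz N)
      have h2 : ‖ev a (φ^[N] z)‖ ≤ 0 := by
        by_contra hpos
        push Not at hpos
        have := mul_pos hpos h1
        simp only [hg] at hgN
        linarith
      exact norm_le_zero_iff.mp h2
    have hback : ∀ n : ℕ, ev a (φ^[n] z) = 0 → ev a z = 0 := by
      intro n
      induction n with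
      | zero => simp
      | succ n ih =>
        intro h0
        apply ih
        have h1 := heig _ (iterate_lt hmaps hz n)
        rw [Function.iterate_succ_apply'] at h0
        rw [h0, mul_zero] at h1
        exact (mul_eq_zero.mp h1).resolve_left hμ
    exact hback N hevN

lemma not_finiteDimensional : ¬ FiniteDimensional ℂ H2 := by
  classical
  intro h
  have ho : Orthonormal ℂ (default : HilbertBasis ℕ ℂ H2) := HilbertBasis.orthonormal _
  have := ho.linearIndependent.finite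
  exact not_finite ℕ

lemma zero_mem_spectrum (hc : IsCompactOperator T) : (0 : ℂ) ∈ spectrum ℂ T := by
  rw [spectrum.zero_mem_iff]
  rintro ⟨u, hu⟩
  apply not_finiteDimensional
  apply FiniteDimensional.of_isCompactOperator_id (𝕜 := ℂ)
  have h1 : IsCompactOperator (T ∘ ((u⁻¹ : (H2 →L[ℂ] H2)ˣ) : H2 →L[ℂ] H2)) :=
    hc.comp_clm _
  have h2 : (T ∘ ((u⁻¹ : (H2 →L[ℂ] H2)ˣ) : H2 →L[ℂ] H2)) = id := by
    funext x
    have h3 : T * ((u⁻¹ : (H2 →L[ℂ] H2)ˣ) : H2 →L[ℂ] H2) = 1 := by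
      rw [← hu, Units.mul_inv]
    have := congrArg (fun S : H2 →L[ℂ] H2 => S x) h3
    simpa using this
  rwa [h2] at h1

theorem spectrum_eq (hψ : DifferentiableOn ℂ ψ (ball 0 1))
    (hφ : DifferentiableOn ℂ φ (ball 0 1))
    (hmaps : MapsTo φ (ball 0 1) (ball 0 1)) (hfix : ∀ p ∈ ball (0 : ℂ) 1, φ p ≠ p)
    (hT : ∀ a : H2, ∀ z ∈ ball (0 : ℂ) 1, ev (T a) z = ψ z * ev a (φ z))
    (hc : IsCompactOperator T) : spectrum ℂ T = {0} := by
  apply Set.eq_singleton_iff_unique_mem.mpr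
  refine ⟨zero_mem_spectrum hc, fun μ hμ => ?_⟩
  by_contra hne
  have h1 := (hc.hasEigenvalue_iff_mem_spectrum hne).mpr hμ
  obtain ⟨a, ha⟩ := h1.exists_hasEigenvector
  exact ha.2 (no_eigen hψ hφ hmaps hfix hT hc hne (by simpa using ha.apply_eq_smul))

end Main

end Pool.Agent.MP_4b0b35_an

end

-- part MP_4b0b35_an.Transfer
section

/-!
Transfer of the spectrum computation to any Hilbert space with an orthonormal basis indexed by
the natural numbers (the monomials).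
-/

namespace Pool.Agent.MP_4b0b35_an

open Metric Set

theorem spectrum_eq_basis {H : Type*} [NormedAddCommGroup H] [InnerProductSpace ℂ H]
    [CompleteSpace H] (e : HilbertBasis ℕ ℂ H) (f : H → ℂ → ℂ)
    (hf : ∀ (a : H) (z : ℂ), f a z = ∑' n : ℕ, inner ℂ (e n) a * z ^ n) (ψ φ : ℂ → ℂ)
    (hψ : DifferentiableOn ℂ ψ (ball 0 1)) (hφ : DifferentiableOn ℂ φ (ball 0 1))
    (hmaps : MapsTo φ (ball 0 1) (ball 0 1)) (hfix : ∀ p ∈ ball (0 : ℂ) 1, φ p ≠ p)
    (T : H →L[ℂ] H) (hT : ∀ a : H, ∀ z ∈ ball (0 : ℂ) 1, f (T a) z = ψ z * f a (φ z))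
    (hc : IsCompactOperator T) : spectrum ℂ T = {0} := by
  have hev : ∀ (a : H) (z : ℂ), f a z = ev (e.repr a) z := by
    intro a z
    rw [hf, ev]
    simp only [HilbertBasis.repr_apply_apply]
  let R : H ≃L[ℂ] H2 := e.repr.toContinuousLinearEquiv
  let S : H2 →L[ℂ] H2 := (R : H →L[ℂ] H2) ∘L T ∘L (R.symm : H2 →L[ℂ] H)
  have hS : ∀ b : H2, S b = e.repr (T (e.repr.symm b)) := fun b => rfl
  have hSc : IsCompactOperator S :=
    (hc.comp_clm (R.symm : H2 →L[ℂ] H)).clm_comp (R : H →L[ℂ] H2)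
  have hST : ∀ b : H2, ∀ z ∈ ball (0 : ℂ) 1, ev (S b) z = ψ z * ev b (φ z) := by
    intro b z hz
    rw [hS, ← hev, hT _ z hz, hev, LinearIsometryEquiv.apply_symm_apply]
  apply Set.eq_singleton_iff_unique_mem.mpr
  constructor
  · rw [spectrum.zero_mem_iff]
    rintro ⟨u, hu⟩
    have hfin : FiniteDimensional ℂ H := by
      apply FiniteDimensional.of_isCompactOperator_id (𝕜 := ℂ)
      have h1 : IsCompactOperator (T ∘ ((u⁻¹ : (H →L[ℂ] H)ˣ) : H →L[ℂ] H)) :=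
        hc.comp_clm _
      have h2 : (T ∘ ((u⁻¹ : (H →L[ℂ] H)ˣ) : H →L[ℂ] H)) = id := by
        funext x
        have h3 : T * ((u⁻¹ : (H →L[ℂ] H)ˣ) : H →L[ℂ] H) = 1 := by
          rw [← hu, Units.mul_inv]
        have := congrArg (fun S : H →L[ℂ] H => S x) h3
        simpa using this
      rwa [h2] at h1
    have := e.orthonormal.linearIndependent.finite
    exact not_finite ℕ
  · intro μ hμ
    by_contra hne
    have h1 := (hc.hasEigenvalue_iff_mem_spectrum hne).mpr hμ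
    obtain ⟨a, ha⟩ := h1.exists_hasEigenvector
    have h2 : T a = μ • a := by simpa using ha.apply_eq_smul
    have h3 : S (e.repr a) = μ • e.repr a := by
      rw [hS, LinearIsometryEquiv.symm_apply_apply, h2, map_smul]
    have h4 := no_eigen hψ hφ hmaps hfix hST hSc hne h3
    exact ha.2 (by simpa using h4)

end Pool.Agent.MP_4b0b35_an

end
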